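import Pool.Agent.W5h12.NCP.Path

set_option autoImplicit false

/-!
# The final count
-/

namespace Pool.Agent.W5h12.NCP

/-- vertices -/
abbrev Vt (T q H m Cm : ℕ) : Type := ((Fin T → Fin q) × Fin H) ⊕ (Fin m × Fin Cm)

/-- the graph -/
def Gt (T q H m Cm : ℕ) : SimpleGraph (Vt T q H m Cm) where
  Adj u v := (∃ p r, u = Sum.inl p ∧ v = Sum.inr r ∧ Inc p r) ∨
    (∃ p r, v = Sum.inl p ∧ u = Sum.inr r ∧ Inc p r)
  symm := ⟨fun u v h => h.symm⟩
  loopless := ⟨by
    rintro u (⟨p, r, h1, h2, _⟩ | ⟨p, r, h1, h2, _⟩)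
    · rw [h1] at h2; cases h2
    · rw [h1] at h2; cases h2⟩

theorem Gt_inl {T q H m Cm : ℕ} {p : (Fin T → Fin q) × Fin H} {v : Vt T q H m Cm}
    (h : (Gt T q H m Cm).Adj (Sum.inl p) v) : ∃ r, v = Sum.inr r ∧ Inc p r := by
  rcases h with ⟨p', r, h1, h2, h3⟩ | ⟨p', r, h1, h2, h3⟩
  · cases h1; exact ⟨r, h2, h3⟩
  · cases h2

theorem Gt_inr {T q H m Cm : ℕ} {r : Fin m × Fin Cm} {v : Vt T q H m Cm}
    (h : (Gt T q H m Cm).Adj (Sum.inr r) v) : ∃ p, v = Sum.inl p ∧ Inc p r := by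
  rcases h with ⟨p', r', h1, h2, h3⟩ | ⟨p', r', h1, h2, h3⟩
  · cases h1
  · cases h2; exact ⟨p', h1, h3⟩

theorem no_path (n q b m H Cm k : ℕ) (hb : 0 < b) (hm : m = (n + 2) * b)
    (hk : 2 * (b + (n + 1) * q ^ n) + 1 < k)
    (P : Vt (n + 1) q H m Cm → ℝ × ℝ)
    (hP : ∀ p r p' r', Bad b p r p' r' →
        ¬ Disjoint (segment ℝ (P (Sum.inl p)) (P (Sum.inr r)))
          (segment ℝ (P (Sum.inl p')) (P (Sum.inr r'))))
    (g : ℕ → Vt (n + 1) q H m Cm)
    (hinj : ∀ i j : ℕ, i < 2 * k → j < 2 * k → g i = g j → i = j)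
    (hadj : ∀ i : ℕ, i + 1 < 2 * k → (Gt (n + 1) q H m Cm).Adj (g i) (g (i + 1)))
    (hdis : ∀ i j : ℕ, i + 1 < j → j + 1 < 2 * k →
      Disjoint (segment ℝ (P (g i)) (P (g (i + 1)))) (segment ℝ (P (g j)) (P (g (j + 1))))) :
    False := by
  -- the starting index
  obtain ⟨s, hs, p0, hp0⟩ : ∃ s, s ≤ 1 ∧ ∃ p, g s = Sum.inl p := by
    rcases hg : g 0 with p | r
    · exact ⟨0, by omega, p, hg⟩
    · have h1 := hadj 0 (by omega)
      rw [hg] at h1
      obtain ⟨p, hp, _⟩ := Gt_inr h1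
      exact ⟨1, le_rfl, p, hp⟩
  -- alternation
  have halt : ∀ i, s + 2 * i < 2 * k → ∃ p, g (s + 2 * i) = Sum.inl p := by
    intro i
    induction i with
    | zero => intro _; exact ⟨p0, hp0⟩
    | succ i ih =>
      intro h
      obtain ⟨p, hp⟩ := ih (by omega)
      have h1 := hadj (s + 2 * i) (by omega)
      rw [hp] at h1
      obtain ⟨r, hr, _⟩ := Gt_inl h1
      have h2 := hadj (s + 2 * i + 1) (by omega)
      rw [hr] at h2
      obtain ⟨p', hp', _⟩ := Gt_inr h2
      exact ⟨p', hp'⟩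
  have halt2 : ∀ i, s + 2 * i + 1 < 2 * k → ∃ r, g (s + 2 * i + 1) = Sum.inr r := by
    intro i h
    obtain ⟨p, hp⟩ := halt i (by omega)
    have h1 := hadj (s + 2 * i) (by omega)
    rw [hp] at h1
    obtain ⟨r, hr, _⟩ := Gt_inl h1
    exact ⟨r, hr⟩
  obtain ⟨r0, hr0⟩ := halt2 0 (by omega)
  have hp' : ∀ i, ∃ p, s + 2 * i < 2 * k → g (s + 2 * i) = Sum.inl p := by
    intro i
    by_cases h : s + 2 * i < 2 * k
    · obtain ⟨p, hp⟩ := halt i h
      exact ⟨p, fun _ => hp⟩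
    · exact ⟨p0, fun h' => absurd h' h⟩
  have hr' : ∀ i, ∃ r, s + 2 * i + 1 < 2 * k → g (s + 2 * i + 1) = Sum.inr r := by
    intro i
    by_cases h : s + 2 * i + 1 < 2 * k
    · obtain ⟨r, hr⟩ := halt2 i h
      exact ⟨r, fun _ => hr⟩
    · exact ⟨r0, fun h' => absurd h' h⟩
  choose p hp using hp'
  choose r hr using hr'
  have hH : Hyp b p r (k - 1) := by
    refine ⟨?_, ?_, ?_, ?_, ?_⟩
    · intro i hi
      have h1 := hadj (s + 2 * i) (by omega)
      rw [hp i (by omega)] at h1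
      obtain ⟨r1, hr1, h2⟩ := Gt_inl h1
      rw [hr i (by omega)] at hr1
      cases hr1
      exact h2
    · intro i hi
      have h1 := hadj (s + 2 * i + 1) (by omega)
      rw [hr i (by omega)] at h1
      obtain ⟨p1, hp1, h2⟩ := Gt_inr h1
      have h3 := hp (i + 1) (by omega)
      rw [show s + 2 * (i + 1) = s + 2 * i + 1 + 1 by ring] at h3
      rw [h3] at hp1
      cases hp1
      exact h2
    · intro i hi j hj he
      have h1 := hp i (by omega)
      have h2 := hp j (by omega)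
      have h3 := hinj (s + 2 * i) (s + 2 * j) (by omega) (by omega) (by rw [h1, h2, he])
      omega
    · intro i hi j hj he
      have h1 := hr i (by omega)
      have h2 := hr j (by omega)
      have h3 := hinj (s + 2 * i + 1) (s + 2 * j + 1) (by omega) (by omega) (by rw [h1, h2, he])
      omega
    · intro i hi j hj a c ha hc hij hac hB
      have hseg : ∀ i a, i < k - 1 → (a = i ∨ a = i + 1) →
          segment ℝ (P (g (s + i + a))) (P (g (s + i + a + 1)))
            = segment ℝ (P (Sum.inl (p a))) (P (Sum.inr (r i))) := by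
        intro i a hi ha
        rcases ha with rfl | rfl
        · have h1 := hp a (by omega)
          have h2 := hr a (by omega)
          rw [show s + a + a = s + 2 * a by ring, h1, h2]
        · have h1 := hp (i + 1) (by omega)
          have h2 := hr i (by omega)
          rw [show s + i + (i + 1) = s + 2 * i + 1 by ring,
            show s + 2 * i + 1 + 1 = s + 2 * (i + 1) by ring, h1, h2, segment_symm]
      have hlt : s + i + a + 1 < s + j + c ∨ s + j + c + 1 < s + i + a := by omega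
      rcases hlt with hlt | hlt
      · have h1 := hdis (s + i + a) (s + j + c) hlt (by omega)
        rw [hseg i a hi ha, hseg j c hj hc] at h1
        exact hP _ _ _ _ hB h1
      · have h1 := hdis (s + j + c) (s + i + a) hlt (by omega)
        rw [hseg i a hi ha, hseg j c hj hc] at h1
        exact hP _ _ _ _ hB h1.symm
  have := hH.bound hb hm
  omega

theorem Xs_le {T q : ℕ} (x : Fin T → Fin q) (hq : 0 < q) :
    Xs x ≤ ((((2 * T + 1) * q) ^ T : ℕ) : ℤ) := by
  have h := ds_abs (Qb T q) (Qb_pos hq) T (fun l => ((x l : ℕ) : ℤ)) (by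
    intro l
    have h1 := (x l).isLt
    have h2 := q_le_Qb (T := T) (q := q)
    rw [abs_of_nonneg (by positivity)]
    omega)
  have h2 := (abs_le.1 h).2
  unfold Xs
  have h3 : ((((2 * T + 1) * q) ^ T : ℕ) : ℤ) = Qb T q ^ T := by
    unfold Qb; push_cast; ring
  rw [h3]
  linarith

theorem edges_ge (T q H m Cm Xm : ℕ) (hXm : ∀ x : Fin T → Fin q, Xs x ≤ (Xm : ℤ))
    (hC : Cm = H + m * Xm) (G : SimpleGraph (Fin (Fintype.card (Vt T q H m Cm))))
    (e : Vt T q H m Cm ≃ Fin (Fintype.card (Vt T q H m Cm)))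
    (hG : ∀ u v, (Gt T q H m Cm).Adj u v → G.Adj (e u) (e v)) :
    q ^ T * H * m ≤ G.edgeSet.ncard := by
  classical
  have hc : ∀ (p : (Fin T → Fin q) × Fin H) (k : Fin m),
      ∃ c : Fin Cm, Inc (Cm := Cm) p (k, c) := by
    intro p k
    have h1 : (0 : ℤ) ≤ ((p.2 : ℕ) : ℤ) + ((m : ℤ) - ((k : ℕ) : ℤ)) * Xs p.1 := by
      have h2 := k.isLt
      have h3 : (0 : ℤ) ≤ (m : ℤ) - ((k : ℕ) : ℤ) := by omega
      have h4 := (Xs_pos p.1).le
      positivity
    have h5 : ((p.2 : ℕ) : ℤ) + ((m : ℤ) - ((k : ℕ) : ℤ)) * Xs p.1 < (Cm : ℤ) := by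
      have h2 := k.isLt
      have h3 := p.2.isLt
      have h4 := hXm p.1
      have h6 : ((m : ℤ) - ((k : ℕ) : ℤ)) * Xs p.1 ≤ (m : ℤ) * (Xm : ℤ) := by
        apply mul_le_mul
        · omega
        · exact h4
        · exact (Xs_pos p.1).le
        · positivity
      rw [hC]
      push_cast
      omega
    refine ⟨⟨(((p.2 : ℕ) : ℤ) + ((m : ℤ) - ((k : ℕ) : ℤ)) * Xs p.1).toNat, by omega⟩, ?_⟩
    unfold Inc
    simp only
    rw [Int.toNat_of_nonneg h1]
  choose c hc using hc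
  let φ : ((Fin T → Fin q) × Fin H) × Fin m → Sym2 (Fin (Fintype.card (Vt T q H m Cm))) :=
    fun x => s(e (Sum.inl x.1), e (Sum.inr (x.2, c x.1 x.2)))
  have hφ : Function.Injective φ := by
    rintro ⟨p, k⟩ ⟨p', k'⟩ h
    simp only [φ, Sym2.eq_iff] at h
    rcases h with ⟨h1, h2⟩ | ⟨h1, h2⟩
    · have h3 := e.injective h1
      have h4 := e.injective h2
      cases h3
      have h5 := Sum.inr.inj h4
      have h6 : k = k' := congrArg Prod.fst h5
      rw [h6]
    · have h3 := e.injective h1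
      cases h3
  have hsub : Set.range φ ⊆ G.edgeSet := by
    rintro _ ⟨⟨p, k⟩, rfl⟩
    simp only [φ, SimpleGraph.mem_edgeSet]
    exact hG _ _ (Or.inl ⟨p, (k, c p k), rfl, rfl, hc p k⟩)
  have hcard : (Set.range φ).ncard = q ^ T * H * m := by
    rw [← Set.image_univ, Set.ncard_image_of_injective _ hφ, Set.ncard_univ]
    simp [Nat.card_eq_fintype_card]
  rw [← hcard]
  exact Set.ncard_le_ncard hsub (Set.toFinite _)

theorem main (C : ℝ) : ∃ (n k : ℕ) (P : Fin n → ℝ × ℝ) (G : SimpleGraph (Fin n)),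
      1 ≤ k ∧
      Function.Injective P ∧
      (∀ a b c : Fin n, a ≠ b → b ≠ c → a ≠ c →
        ¬ Collinear ℝ ({P a, P b, P c} : Set (ℝ × ℝ))) ∧
      (G.edgeSet.ncard : ℝ) > C * (k : ℝ) * (n : ℝ) ∧
      ¬ ∃ f : ℕ → Fin n,
        (∀ i j : ℕ, i < 2 * k → j < 2 * k → f i = f j → i = j) ∧
        (∀ i : ℕ, i + 1 < 2 * k → G.Adj (f i) (f (i + 1))) ∧
        (∀ i j : ℕ, i + 1 < j → j + 1 < 2 * k →
          Disjoint (segment ℝ (P (f i)) (P (f (i + 1))))
                   (segment ℝ (P (f j)) (P (f (j + 1))))) := by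
  classical
  obtain ⟨t, ht⟩ := exists_nat_gt (18 * |C|)
  -- parameters
  let q := (t + 1) * (t + 2)
  let b := (t + 1) * q ^ t
  let m := (t + 2) * b
  let Xm := ((2 * (t + 1) + 1) * q) ^ (t + 1)
  let H := m * Xm
  let Cm := H + m * Xm
  let k := 4 * b + 2
  have hq : 0 < q := by positivity
  have hb : 0 < b := by positivity
  have hm0 : 0 < m := by positivity
  have hXm0 : 0 < Xm := by positivity
  have hH0 : 0 < H := by positivity
  have hw : q ^ (t + 1) = m := by
    simp only [m, b]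
    rw [pow_succ]
    simp only [q]
    ring
  obtain ⟨P, hP1, hP2, hP3⟩ := exists_config (t + 1) q b m H Cm
  let V := Vt (t + 1) q H m Cm
  let e : V ≃ Fin (Fintype.card V) := Fintype.equivFin V
  let G : SimpleGraph (Fin (Fintype.card V)) := (Gt (t + 1) q H m Cm).comap e.symm
  have hGadj : ∀ i j, G.Adj i j ↔ (Gt (t + 1) q H m Cm).Adj (e.symm i) (e.symm j) :=
    fun i j => Iff.rfl
  refine ⟨Fintype.card V, k, fun i => P (e.symm i), G, ?_, ?_, ?_, ?_, ?_⟩
  · simp only [k]; omega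
  · intro i j hij
    exact e.symm.injective (hP1 hij)
  · intro x y z hxy hyz hxz
    exact hP2 _ _ _ (fun h => hxy (e.symm.injective h)) (fun h => hyz (e.symm.injective h))
      (fun h => hxz (e.symm.injective h))
  · have hE := edges_ge (t + 1) q H m Cm Xm (fun x => Xs_le x hq) rfl G e (by
      intro u v huv
      rw [hGadj, e.symm_apply_apply, e.symm_apply_apply]
      exact huv)
    have hN : Fintype.card V = 3 * (m * H) := by
      have : Fintype.card V = q ^ (t + 1) * H + m * Cm := by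
        simp [V, Vt]
      rw [this, hw]
      simp only [Cm, H]
      ring
    rw [hw] at hE
    have hE' : ((m * H * m : ℕ) : ℝ) ≤ (G.edgeSet.ncard : ℝ) := by exact_mod_cast hE
    refine lt_of_lt_of_le ?_ hE'
    rw [hN]
    have hbR : (0 : ℝ) < (b : ℝ) := by exact_mod_cast hb
    have hb1 : (1 : ℝ) ≤ (b : ℝ) := by exact_mod_cast hb
    have hmHR : (0 : ℝ) < ((m * H : ℕ) : ℝ) := by exact_mod_cast Nat.mul_pos hm0 hH0
    have hkR : ((k : ℕ) : ℝ) ≤ 6 * b := by
      simp only [k]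
      push_cast
      linarith
    have hk0 : (0 : ℝ) ≤ ((k : ℕ) : ℝ) := by positivity
    have h1 : C * (k : ℝ) * ((3 * (m * H) : ℕ) : ℝ) ≤ |C| * (6 * b) * (3 * ((m * H : ℕ) : ℝ)) := by
      push_cast
      have h2 : C * (k : ℝ) ≤ |C| * (6 * b) := by
        calc C * (k : ℝ) ≤ |C| * (k : ℝ) := mul_le_mul_of_nonneg_right (le_abs_self C) hk0
          _ ≤ |C| * (6 * b) := mul_le_mul_of_nonneg_left hkR (abs_nonneg C)
      have h3 : (0 : ℝ) ≤ 3 * ((m : ℝ) * (H : ℝ)) := by positivity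
      exact mul_le_mul_of_nonneg_right h2 h3
    refine lt_of_le_of_lt h1 ?_
    have h4 : |C| * (6 * b) * (3 * ((m * H : ℕ) : ℝ)) = (18 * |C|) * (b * ((m * H : ℕ) : ℝ)) := by
      ring
    rw [h4]
    have h5 : ((m * H * m : ℕ) : ℝ) = ((t : ℝ) + 2) * (b * ((m * H : ℕ) : ℝ)) := by
      simp only [m]
      push_cast
      ring
    rw [h5]
    refine mul_lt_mul_of_pos_right (by linarith) (by positivity)
  · rintro ⟨f, hf1, hf2, hf3⟩
    refine no_path t q b m H Cm k hb rfl ?_ P hP3 (fun i => e.symm (f i)) ?_ ?_ hf3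
    · simp only [k, b]
      ring_nf
      omega
    · intro i j hi hj h
      exact hf1 i j hi hj (e.symm.injective h)
    · intro i hi
      exact (hGadj _ _).1 (hf2 i hi)

end Pool.Agent.W5h12.NCP
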