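import Mathlib

set_option autoImplicit false

/-!
# Sums of digits
-/

namespace Pool.Agent.W5h12.NCP

/-- the number with digits `a 0, a 1, ...` (most significant first) in base `B` -/
def ds (B : ℤ) (n : ℕ) (a : Fin n → ℤ) : ℤ := ∑ l : Fin n, a l * B ^ (n - 1 - l.val)

theorem ds_succ (B : ℤ) (n : ℕ) (a : Fin (n + 1) → ℤ) :
    ds B (n + 1) a = a 0 * B ^ n + ds B n (fun l => a l.succ) := by
  unfold ds
  rw [Fin.sum_univ_succ]
  congr 1
  refine Finset.sum_congr rfl (fun l _ => ?_)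
  congr 2
  have : (l.succ).val = l.val + 1 := rfl
  rw [this]
  omega

theorem ds_abs (B : ℤ) (hB : 1 ≤ B) (n : ℕ) (a : Fin n → ℤ) (h : ∀ l, |a l| ≤ B - 1) :
    |ds B n a| ≤ B ^ n - 1 := by
  induction n with
  | zero => simp [ds]
  | succ n ih =>
    rw [ds_succ]
    have h1 := ih (fun l => a l.succ) (fun l => h l.succ)
    have h2 : |a 0 * B ^ n| ≤ (B - 1) * B ^ n := by
      rw [abs_mul, abs_of_nonneg (pow_nonneg (by linarith) n : (0:ℤ) ≤ B ^ n)]
      exact mul_le_mul_of_nonneg_right (h 0) (pow_nonneg (by linarith) n)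
    calc |a 0 * B ^ n + ds B n (fun l => a l.succ)| ≤ |a 0 * B ^ n| + |ds B n (fun l => a l.succ)| :=
          abs_add_le _ _
      _ ≤ (B - 1) * B ^ n + (B ^ n - 1) := add_le_add h2 h1
      _ = B ^ (n + 1) - 1 := by ring

theorem ds_neg (B : ℤ) (hB : 1 ≤ B) (n : ℕ) (a : Fin n → ℤ) (h : ∀ l, |a l| ≤ B - 1)
    (i : Fin n) (hi : ∀ l, l < i → a l = 0) (ha : a i < 0) : ds B n a < 0 := by
  induction n with
  | zero => exact i.elim0
  | succ n ih =>
    rw [ds_succ]
    have h1 := ds_abs B hB n (fun l => a l.succ) (fun l => h l.succ)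
    have hp : (0 : ℤ) ≤ B ^ n := pow_nonneg (by linarith) n
    rcases Fin.eq_zero_or_eq_succ i with h0 | ⟨j, hj⟩
    · subst h0
      have h2 : a 0 * B ^ n ≤ (-1) * B ^ n := mul_le_mul_of_nonneg_right (by linarith) hp
      have h3 := (abs_le.1 h1).2
      linarith
    · subst hj
      have h0 : a 0 = 0 := hi 0 (Fin.succ_pos j)
      rw [h0, zero_mul, zero_add]
      exact ih (fun l => a l.succ) (fun l => h l.succ) j
        (fun l hl => hi l.succ (Fin.succ_lt_succ_iff.2 hl)) ha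

theorem ds_sub (B : ℤ) (n : ℕ) (a b : Fin n → ℤ) :
    ds B n a - ds B n b = ds B n (fun l => a l - b l) := by
  unfold ds
  rw [← Finset.sum_sub_distrib]
  exact Finset.sum_congr rfl (fun l _ => by ring)

theorem ds_neg' (B : ℤ) (n : ℕ) (a : Fin n → ℤ) : - ds B n a = ds B n (fun l => - a l) := by
  unfold ds
  rw [← Finset.sum_neg_distrib]
  exact Finset.sum_congr rfl (fun l _ => by ring)

theorem ds_pos (B : ℤ) (hB : 1 ≤ B) (n : ℕ) (a : Fin n → ℤ) (h : ∀ l, |a l| ≤ B - 1)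
    (i : Fin n) (hi : ∀ l, l < i → a l = 0) (ha : 0 < a i) : 0 < ds B n a := by
  have h1 := ds_neg B hB n (fun l => - a l) (fun l => by rw [abs_neg]; exact h l) i
    (fun l hl => by rw [hi l hl, neg_zero]) (by linarith)
  rw [← ds_neg'] at h1
  linarith

theorem exists_top {n : ℕ} {α : Type} (x x' : Fin n → α) (h : x ≠ x') :
    ∃ i, (∀ l < i, x l = x' l) ∧ x i ≠ x' i := by
  obtain ⟨i0, hi0⟩ := Function.ne_iff.1 h
  let S : Set (Fin n) := {i | x i ≠ x' i}
  have hS : S.Nonempty := ⟨i0, hi0⟩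
  refine ⟨wellFounded_lt.min S hS, ?_, wellFounded_lt.min_mem S hS⟩
  intro l hl
  by_contra hne
  exact wellFounded_lt.not_lt_min S hne hl

end Pool.Agent.W5h12.NCP
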