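import Pool.Agent.W5h12.NCP.Geom
import Pool.Agent.W5h12.NCP.Digits

set_option autoImplicit false

/-!
# The configuration
-/

namespace Pool.Agent.W5h12.NCP

open Filter Topology

theorem cr_of (X Y X' Y' ρ ρ' : ℝ) (hX : 0 < X) (hXX : X ≤ X')
    (h : (Y + ρ * (X' - X) - Y') * (ρ - ρ') < 0) :
    Cr (1 / X, Y / X) (0, ρ) (1 / X', Y' / X') (0, ρ') := by
  have hX' : 0 < X' := lt_of_lt_of_le hX hXX
  have e1 : ori (1 / X, Y / X) (0, ρ) (1 / X', Y' / X') = (Y + ρ * (X' - X) - Y') / (X * X') := by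
    unfold ori
    field_simp
    ring
  have e2 : ori (1 / X, Y / X) (0, ρ) (0, ρ') = (ρ - ρ') / X := by
    unfold ori
    field_simp
    ring
  have e3 : ori (1 / X', Y' / X') (0, ρ') (1 / X, Y / X)
      = (Y' + ρ' * (X - X') - Y) / (X * X') := by
    unfold ori
    field_simp
    ring
  have e4 : ori (1 / X', Y' / X') (0, ρ') (0, ρ) = (ρ' - ρ) / X' := by
    unfold ori
    field_simp
    ring
  constructor
  · rw [e1, e2, div_mul_div_comm]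
    exact div_neg_of_neg_of_pos h (by positivity)
  · rw [e3, e4, div_mul_div_comm]
    refine div_neg_of_neg_of_pos ?_ (by positivity)
    have : (Y' + ρ' * (X - X') - Y) * (ρ' - ρ)
        = (Y + ρ * (X' - X) - Y') * (ρ - ρ') - (ρ - ρ') ^ 2 * (X' - X) := by ring
    rw [this]
    have h2 : 0 ≤ (ρ - ρ') ^ 2 * (X' - X) := mul_nonneg (sq_nonneg _) (by linarith)
    linarith

/-- base -/
def Qb (T q : ℕ) : ℤ := (2 * T + 1) * q

/-- abscissa of a column -/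
def Xs {T q : ℕ} (x : Fin T → Fin q) : ℤ := 1 + ds (Qb T q) T (fun l => ((x l : ℕ) : ℤ))

/-- the perturbation of a column -/
def fs {T q : ℕ} (x : Fin T → Fin q) : ℤ :=
  ds (Qb T q) T (fun l => (-2 * ((l : ℕ) : ℤ)) * ((x l : ℕ) : ℤ))

/-- the perturbation of a class -/
def zs (b k : ℕ) : ℤ := -2 * ((k / b : ℕ) : ℤ) + 1

/-- macroscopic height difference -/
def D0 {T q H : ℕ} (m : ℕ) (p p' : (Fin T → Fin q) × Fin H) (k : ℕ) : ℤ :=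
  ((p.2 : ℕ) : ℤ) + ((k : ℤ) - m) * (Xs p'.1 - Xs p.1) - ((p'.2 : ℕ) : ℤ)

/-- microscopic height difference -/
def D1 {T q H : ℕ} (b : ℕ) (p p' : (Fin T → Fin q) × Fin H) (k : ℕ) : ℤ :=
  fs p.1 - fs p'.1 + zs b k * (Xs p'.1 - Xs p.1)

/-- a crossing pair of edges -/
def Bad {T q H m Cm : ℕ} (b : ℕ) (p : (Fin T → Fin q) × Fin H) (r : Fin m × Fin Cm)
    (p' : (Fin T → Fin q) × Fin H) (r' : Fin m × Fin Cm) : Prop :=
  Xs p.1 ≤ Xs p'.1 ∧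
    ((((r.1 : ℕ) : ℤ) - ((r'.1 : ℕ) : ℤ)) * D0 m p p' r.1 < 0 ∨
     (D0 m p p' r.1 = 0 ∧ (((r.1 : ℕ) : ℤ) - ((r'.1 : ℕ) : ℤ)) * D1 b p p' r.1 < 0) ∨
     (r.1 = r'.1 ∧ (((r'.2 : ℕ) : ℤ) - ((r.2 : ℕ) : ℤ)) * D0 m p p' r.1 < 0))

/-- ordinates in the configuration -/
noncomputable def Ye {T q H : ℕ} (ε : ℝ) (p : (Fin T → Fin q) × Fin H) : ℝ :=
  ((p.2 : ℕ) : ℝ) + ε * (fs p.1 : ℝ)

/-- slopes in the configuration -/
noncomputable def Re {m Cm : ℕ} (b : ℕ) (ε : ℝ) (r : Fin m × Fin Cm) : ℝ :=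
  (((r.1 : ℕ) : ℝ) - m) + ε * (zs b r.1 : ℝ) - ε ^ 2 * ((r.2 : ℕ) : ℝ)

theorem bad_eventually {T q H m Cm : ℕ} (b : ℕ) (p : (Fin T → Fin q) × Fin H) (r : Fin m × Fin Cm)
    (p' : (Fin T → Fin q) × Fin H) (r' : Fin m × Fin Cm) (h : Bad b p r p' r') :
    ∀ᶠ ε in 𝓝[>] (0 : ℝ),
      (Ye ε p + Re b ε r * ((Xs p'.1 : ℝ) - (Xs p.1 : ℝ)) - Ye ε p') * (Re b ε r - Re b ε r') < 0 := by
  obtain ⟨hX, h⟩ := h
  have hpos : ∀ᶠ ε in 𝓝[>] (0 : ℝ), 0 < ε := by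
    filter_upwards [self_mem_nhdsWithin] with ε hε using hε
  rcases h with h | ⟨h0, h⟩ | ⟨hk, h⟩
  · -- macroscopic
    have hR : ((((r.1 : ℕ) : ℝ) - ((r'.1 : ℕ) : ℝ)) *
        (((p.2 : ℕ) : ℝ) + (((r.1 : ℕ) : ℝ) - m) * ((Xs p'.1 : ℝ) - (Xs p.1 : ℝ)) - ((p'.2 : ℕ) : ℝ)))
        < 0 := by
      have : (((((r.1 : ℕ) : ℤ) - ((r'.1 : ℕ) : ℤ)) * D0 m p p' r.1 : ℤ) : ℝ) < 0 := by
        exact_mod_cast h
      unfold D0 at this
      push_cast at this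
      exact this
    have hc : ContinuousAt (fun ε : ℝ => (Ye ε p + Re b ε r * ((Xs p'.1 : ℝ) - (Xs p.1 : ℝ))
        - Ye ε p') * (Re b ε r - Re b ε r')) 0 := by
      unfold Ye Re
      fun_prop
    have h2 := hc.eventually_lt (g := fun _ => (0 : ℝ)) continuousAt_const (by
      unfold Ye Re
      simp only [zero_mul, add_zero, ne_eq, OfNat.ofNat_ne_zero, not_false_eq_true, zero_pow,
        sub_zero]
      nlinarith [hR])
    exact h2.filter_mono nhdsWithin_le_nhds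
  · -- microscopic
    have h0R : ((p.2 : ℕ) : ℝ) + (((r.1 : ℕ) : ℝ) - m) * ((Xs p'.1 : ℝ) - (Xs p.1 : ℝ))
        - ((p'.2 : ℕ) : ℝ) = 0 := by
      have : ((D0 m p p' r.1 : ℤ) : ℝ) = 0 := by exact_mod_cast h0
      unfold D0 at this
      push_cast at this
      exact this
    have hR : ((((r.1 : ℕ) : ℝ) - ((r'.1 : ℕ) : ℝ)) *
        ((fs p.1 : ℝ) - (fs p'.1 : ℝ) + (zs b r.1 : ℝ) * ((Xs p'.1 : ℝ) - (Xs p.1 : ℝ))))
        < 0 := by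
      have : (((((r.1 : ℕ) : ℤ) - ((r'.1 : ℕ) : ℤ)) * D1 b p p' r.1 : ℤ) : ℝ) < 0 := by
        exact_mod_cast h
      unfold D1 at this
      push_cast at this
      exact this
    have hc : ContinuousAt (fun ε : ℝ => ((fs p.1 : ℝ) - (fs p'.1 : ℝ) + (zs b r.1 : ℝ) *
        ((Xs p'.1 : ℝ) - (Xs p.1 : ℝ)) - ε * ((r.2 : ℕ) : ℝ) * ((Xs p'.1 : ℝ) - (Xs p.1 : ℝ)))
        * (Re b ε r - Re b ε r')) 0 := by
      unfold Re
      fun_prop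
    have h2 := hc.eventually_lt (g := fun _ => (0 : ℝ)) continuousAt_const (by
      unfold Re
      simp only [zero_mul, add_zero, ne_eq, OfNat.ofNat_ne_zero, not_false_eq_true, zero_pow,
        sub_zero]
      nlinarith [hR])
    filter_upwards [h2.filter_mono nhdsWithin_le_nhds, hpos] with ε h3 h4
    have e : (Ye ε p + Re b ε r * ((Xs p'.1 : ℝ) - (Xs p.1 : ℝ)) - Ye ε p')
        = ε * ((fs p.1 : ℝ) - (fs p'.1 : ℝ) + (zs b r.1 : ℝ) *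
        ((Xs p'.1 : ℝ) - (Xs p.1 : ℝ)) - ε * ((r.2 : ℕ) : ℝ) * ((Xs p'.1 : ℝ) - (Xs p.1 : ℝ))) := by
      have : (Ye ε p + Re b ε r * ((Xs p'.1 : ℝ) - (Xs p.1 : ℝ)) - Ye ε p')
        = (((p.2 : ℕ) : ℝ) + (((r.1 : ℕ) : ℝ) - m) * ((Xs p'.1 : ℝ) - (Xs p.1 : ℝ))
          - ((p'.2 : ℕ) : ℝ)) + ε * ((fs p.1 : ℝ) - (fs p'.1 : ℝ) + (zs b r.1 : ℝ) *
        ((Xs p'.1 : ℝ) - (Xs p.1 : ℝ)) - ε * ((r.2 : ℕ) : ℝ) * ((Xs p'.1 : ℝ) - (Xs p.1 : ℝ))) := by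
        unfold Ye Re
        ring
      rw [this, h0R, zero_add]
    rw [e, mul_assoc]
    exact mul_neg_of_pos_of_neg h4 h3
  · -- parallel
    have hR : ((((r'.2 : ℕ) : ℝ) - ((r.2 : ℕ) : ℝ)) *
        (((p.2 : ℕ) : ℝ) + (((r.1 : ℕ) : ℝ) - m) * ((Xs p'.1 : ℝ) - (Xs p.1 : ℝ)) - ((p'.2 : ℕ) : ℝ)))
        < 0 := by
      have : (((((r'.2 : ℕ) : ℤ) - ((r.2 : ℕ) : ℤ)) * D0 m p p' r.1 : ℤ) : ℝ) < 0 := by
        exact_mod_cast h
      unfold D0 at this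
      push_cast at this
      exact this
    have hc : ContinuousAt (fun ε : ℝ => (Ye ε p + Re b ε r * ((Xs p'.1 : ℝ) - (Xs p.1 : ℝ))
        - Ye ε p') * ((((r'.2 : ℕ) : ℝ) - ((r.2 : ℕ) : ℝ)))) 0 := by
      unfold Ye Re
      fun_prop
    have h2 := hc.eventually_lt (g := fun _ => (0 : ℝ)) continuousAt_const (by
      unfold Ye Re
      simp only [zero_mul, add_zero, ne_eq, OfNat.ofNat_ne_zero, not_false_eq_true, zero_pow,
        sub_zero]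
      nlinarith [hR])
    filter_upwards [h2.filter_mono nhdsWithin_le_nhds, hpos] with ε h3 h4
    have e : Re b ε r - Re b ε r' = ε ^ 2 * ((((r'.2 : ℕ) : ℝ) - ((r.2 : ℕ) : ℝ))) := by
      unfold Re
      rw [hk]
      ring
    rw [e]
    have : (Ye ε p + Re b ε r * ((Xs p'.1 : ℝ) - (Xs p.1 : ℝ)) - Ye ε p') *
        (ε ^ 2 * ((((r'.2 : ℕ) : ℝ) - ((r.2 : ℕ) : ℝ))))
        = ε ^ 2 * ((Ye ε p + Re b ε r * ((Xs p'.1 : ℝ) - (Xs p.1 : ℝ)) - Ye ε p') *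
          ((((r'.2 : ℕ) : ℝ) - ((r.2 : ℕ) : ℝ)))) := by ring
    rw [this]
    exact mul_neg_of_pos_of_neg (by positivity) h3

theorem Qb_pos {T q : ℕ} (hq : 0 < q) : 1 ≤ Qb T q := by
  unfold Qb
  have h1 : (1 : ℤ) ≤ 2 * T + 1 := by omega
  have h2 : (1 : ℤ) ≤ q := by exact_mod_cast hq
  nlinarith

theorem Xs_pos {T q : ℕ} (x : Fin T → Fin q) : 0 < Xs x := by
  unfold Xs ds
  have : (0 : ℤ) ≤ ∑ l : Fin T, ((x l : ℕ) : ℤ) * Qb T q ^ (T - 1 - l.val) := by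
    refine Finset.sum_nonneg (fun l _ => ?_)
    have : 0 < q := Nat.lt_of_le_of_lt (Nat.zero_le _) (x l).isLt
    exact mul_nonneg (by positivity) (pow_nonneg (by linarith [Qb_pos (T := T) this]) _)
  linarith

/-- the configuration exists -/
theorem exists_config (T q b m H Cm : ℕ) :
    ∃ P : ((Fin T → Fin q) × Fin H) ⊕ (Fin m × Fin Cm) → ℝ × ℝ, Function.Injective P ∧
      (∀ a b c, a ≠ b → b ≠ c → a ≠ c → ¬ Collinear ℝ ({P a, P b, P c} : Set (ℝ × ℝ))) ∧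
      ∀ p r p' r', Bad b p r p' r' →
        ¬ Disjoint (segment ℝ (P (Sum.inl p)) (P (Sum.inr r)))
          (segment ℝ (P (Sum.inl p')) (P (Sum.inr r'))) := by
  classical
  have hev : ∀ᶠ ε in 𝓝[>] (0 : ℝ), ∀ (p : (Fin T → Fin q) × Fin H) (r : Fin m × Fin Cm)
      (p' : (Fin T → Fin q) × Fin H) (r' : Fin m × Fin Cm), Bad b p r p' r' →
      (Ye ε p + Re b ε r * ((Xs p'.1 : ℝ) - (Xs p.1 : ℝ)) - Ye ε p') * (Re b ε r - Re b ε r')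
        < 0 := by
    rw [eventually_all]; intro p
    rw [eventually_all]; intro r
    rw [eventually_all]; intro p'
    rw [eventually_all]; intro r'
    by_cases h : Bad b p r p' r'
    · filter_upwards [bad_eventually b p r p' r' h] with ε hε _ using hε
    · exact Eventually.of_forall (fun ε h' => absurd h' h)
  obtain ⟨ε, hε⟩ := hev.exists
  let P0 : ((Fin T → Fin q) × Fin H) ⊕ (Fin m × Fin Cm) → ℝ × ℝ := fun v =>
    match v with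
    | Sum.inl p => (1 / (Xs p.1 : ℝ), Ye ε p / (Xs p.1 : ℝ))
    | Sum.inr r => (0, Re b ε r)
  let S : ((Fin T → Fin q) × Fin H) ⊕ (Fin m × Fin Cm) → ((Fin T → Fin q) × Fin H) ⊕ (Fin m × Fin Cm)
      → ((Fin T → Fin q) × Fin H) ⊕ (Fin m × Fin Cm) → ((Fin T → Fin q) × Fin H) ⊕ (Fin m × Fin Cm)
      → Prop := fun a b' c d => ∃ p r p' r', a = Sum.inl p ∧ b' = Sum.inr r ∧ c = Sum.inl p' ∧
        d = Sum.inr r' ∧ Bad b p r p' r'
  obtain ⟨P, h1, h2, h3⟩ := exists_gp P0 S (by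
    rintro _ _ _ _ ⟨p, r, p', r', rfl, rfl, rfl, rfl, hB⟩
    have hX : (0 : ℝ) < (Xs p.1 : ℝ) := by exact_mod_cast Xs_pos p.1
    have hXX : (Xs p.1 : ℝ) ≤ (Xs p'.1 : ℝ) := by exact_mod_cast hB.1
    exact cr_of _ _ _ _ _ _ hX hXX (hε p r p' r' hB))
  exact ⟨P, h1, h2, fun p r p' r' hB =>
    (h3 _ _ _ _ ⟨p, r, p', r', rfl, rfl, rfl, rfl, hB⟩).not_disjoint⟩

end Pool.Agent.W5h12.NCP
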