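import Mathlib

set_option autoImplicit false

/-!
# Geometry: crossing segments, and perturbation into general position
-/

namespace Pool.Agent.W5h12.NCP

open Filter Topology

/-- twice the signed area of the triangle `a b c` -/
def ori (a b c : ℝ × ℝ) : ℝ := (b.1 - a.1) * (c.2 - a.2) - (b.2 - a.2) * (c.1 - a.1)

/-- the segments `ab` and `cd` cross properly -/
def Cr (a b c d : ℝ × ℝ) : Prop := ori a b c * ori a b d < 0 ∧ ori c d a * ori c d b < 0

theorem Cr.not_disjoint {a b c d : ℝ × ℝ} (h : Cr a b c d) :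
    ¬ Disjoint (segment ℝ a b) (segment ℝ c d) := by
  obtain ⟨h1, h2⟩ := h
  have key : ∀ u v : ℝ, u * v < 0 → u - v ≠ 0 ∧ 0 ≤ u / (u - v) ∧ 0 ≤ - v / (u - v) ∧
      u / (u - v) + - v / (u - v) = 1 := by
    intro u v huv
    have hne : u - v ≠ 0 := by
      intro h0
      have : u = v := by linarith
      subst this
      nlinarith [mul_self_nonneg u]
    refine ⟨hne, ?_, ?_, ?_⟩
    · rcases mul_neg_iff.1 huv with ⟨hu, hv⟩ | ⟨hu, hv⟩
      · exact div_nonneg hu.le (by linarith)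
      · exact div_nonneg_of_nonpos hu.le (by linarith)
    · rcases mul_neg_iff.1 huv with ⟨hu, hv⟩ | ⟨hu, hv⟩
      · exact div_nonneg (by linarith) (by linarith)
      · exact div_nonneg_of_nonpos (by linarith) (by linarith)
    · rw [← add_div]
      rw [div_eq_one_iff_eq hne]; ring
  obtain ⟨n1, p1, q1, s1⟩ := key _ _ h1
  obtain ⟨n2, p2, q2, s2⟩ := key _ _ h2
  rw [Set.not_disjoint_iff]
  refine ⟨(-(ori c d b) / (ori c d a - ori c d b)) • a + (ori c d a / (ori c d a - ori c d b)) • b,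
    ⟨_, _, q2, p2, by rw [add_comm]; exact s2, rfl⟩,
    ⟨(-(ori a b d) / (ori a b c - ori a b d)), (ori a b c / (ori a b c - ori a b d)),
      q1, p1, by rw [add_comm]; exact s1, ?_⟩⟩
  have e1 : ori a b c - ori a b d = -(ori c d a - ori c d b) := by
    unfold ori; ring
  have n3 : ori c d a - ori c d b ≠ 0 := n2
  rw [e1]
  ext
  · simp only [Prod.fst_add, Prod.smul_fst, smul_eq_mul]
    field_simp
    unfold ori
    ring
  · simp only [Prod.snd_add, Prod.smul_snd, smul_eq_mul]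
    field_simp
    unfold ori
    ring

theorem ori_eq_zero_of_collinear {a b c : ℝ × ℝ} (h : Collinear ℝ ({a, b, c} : Set (ℝ × ℝ))) :
    ori a b c = 0 := by
  rw [collinear_iff_of_mem (p₀ := a) (by simp)] at h
  obtain ⟨v, hv⟩ := h
  obtain ⟨r, hr⟩ := hv b (by simp)
  obtain ⟨s, hs⟩ := hv c (by simp)
  have hb1 : b.1 = r * v.1 + a.1 := by rw [hr]; simp
  have hb2 : b.2 = r * v.2 + a.2 := by rw [hr]; simp
  have hc1 : c.1 = s * v.1 + a.1 := by rw [hs]; simp
  have hc2 : c.2 = s * v.2 + a.2 := by rw [hs]; simp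
  unfold ori
  rw [hb1, hb2, hc1, hc2]
  ring

theorem quad_ne (A B C : ℝ) (hC : C ≠ 0) : ∀ᶠ δ in 𝓝[≠] (0 : ℝ), A + B * δ + C * δ ^ 2 ≠ 0 := by
  have hd : ∀ᶠ δ in 𝓝[≠] (0 : ℝ), δ ≠ 0 := by
    filter_upwards [self_mem_nhdsWithin] with δ hδ using hδ
  by_cases hA : A = 0
  · by_cases hB : B = 0
    · filter_upwards [hd] with δ hδ
      subst hA; subst hB
      simp [hC, hδ]
    · have hc : ContinuousAt (fun δ : ℝ => B + C * δ) 0 := by fun_prop
      have h1 : ∀ᶠ δ in 𝓝 (0 : ℝ), B + C * δ ≠ 0 :=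
        hc.eventually_ne (by simpa using hB)
      filter_upwards [hd, h1.filter_mono nhdsWithin_le_nhds] with δ hδ h2
      subst hA
      have : (0 : ℝ) + B * δ + C * δ ^ 2 = δ * (B + C * δ) := by ring
      rw [this]
      exact mul_ne_zero hδ h2
  · have hc : ContinuousAt (fun δ : ℝ => A + B * δ + C * δ ^ 2) 0 := by fun_prop
    have h1 : ∀ᶠ δ in 𝓝 (0 : ℝ), A + B * δ + C * δ ^ 2 ≠ 0 :=
      hc.eventually_ne (by simpa using hA)
    exact h1.filter_mono nhdsWithin_le_nhds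

theorem lin_ne (A B : ℝ) (hB : B ≠ 0) : ∀ᶠ δ in 𝓝[≠] (0 : ℝ), A + B * δ ≠ 0 := by
  have hd : ∀ᶠ δ in 𝓝[≠] (0 : ℝ), δ ≠ 0 := by
    filter_upwards [self_mem_nhdsWithin] with δ hδ using hδ
  by_cases hA : A = 0
  · filter_upwards [hd] with δ hδ
    subst hA
    simp [hB, hδ]
  · have hc : ContinuousAt (fun δ : ℝ => A + B * δ) 0 := by fun_prop
    have h1 : ∀ᶠ δ in 𝓝 (0 : ℝ), A + B * δ ≠ 0 :=
      hc.eventually_ne (by simpa using hA)
    exact h1.filter_mono nhdsWithin_le_nhds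

/-- a finite configuration can be perturbed into general position, keeping finitely many proper
crossings -/
theorem exists_gp {V : Type} [Finite V] (P : V → ℝ × ℝ) (S : V → V → V → V → Prop)
    (hS : ∀ a b c d, S a b c d → Cr (P a) (P b) (P c) (P d)) :
    ∃ P' : V → ℝ × ℝ, Function.Injective P' ∧
      (∀ a b c : V, a ≠ b → b ≠ c → a ≠ c → ¬ Collinear ℝ ({P' a, P' b, P' c} : Set (ℝ × ℝ))) ∧
      ∀ a b c d, S a b c d → Cr (P' a) (P' b) (P' c) (P' d) := by
  classical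
  have := Fintype.ofFinite V
  obtain ⟨g0, hg0⟩ : ∃ g : V → ℝ, Function.Injective g := by
    refine ⟨fun v => ((Fintype.equivFin V v : ℕ) : ℝ), ?_⟩
    intro a b hab
    have hab' : (((Fintype.equivFin V a : ℕ)) : ℝ) = ((Fintype.equivFin V b : ℕ) : ℝ) := hab
    have h1 : ((Fintype.equivFin V a : ℕ)) = (Fintype.equivFin V b : ℕ) := by exact_mod_cast hab'
    exact (Fintype.equivFin V).injective (Fin.ext h1)
  let Pd : ℝ → V → ℝ × ℝ := fun δ v => ((P v).1 + δ * g0 v, (P v).2 + δ * (g0 v) ^ 2)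
  have hinj : ∀ᶠ δ in 𝓝[≠] (0 : ℝ), ∀ a b : V, a ≠ b → (Pd δ a).1 - (Pd δ b).1 ≠ 0 := by
    rw [eventually_all]; intro a
    rw [eventually_all]; intro b
    by_cases hab : a = b
    · exact Eventually.of_forall (fun δ h => absurd hab h)
    · have hB : g0 a - g0 b ≠ 0 := sub_ne_zero.2 (fun h => hab (hg0 h))
      filter_upwards [lin_ne ((P a).1 - (P b).1) (g0 a - g0 b) hB] with δ hδ _
      simp only [Pd]
      intro h0
      apply hδ
      linarith
  have hcol : ∀ᶠ δ in 𝓝[≠] (0 : ℝ), ∀ a b c : V, a ≠ b → b ≠ c → a ≠ c →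
      ori (Pd δ a) (Pd δ b) (Pd δ c) ≠ 0 := by
    rw [eventually_all]; intro a
    rw [eventually_all]; intro b
    rw [eventually_all]; intro c
    by_cases hab : a = b
    · exact Eventually.of_forall (fun δ h => absurd hab h)
    by_cases hbc : b = c
    · exact Eventually.of_forall (fun δ _ h => absurd hbc h)
    by_cases hac : a = c
    · exact Eventually.of_forall (fun δ _ _ h => absurd hac h)
    have hC : (g0 b - g0 a) * (g0 c ^ 2 - g0 a ^ 2) - (g0 b ^ 2 - g0 a ^ 2) * (g0 c - g0 a) ≠ 0 := by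
      have e : (g0 b - g0 a) * (g0 c ^ 2 - g0 a ^ 2) - (g0 b ^ 2 - g0 a ^ 2) * (g0 c - g0 a)
          = (g0 b - g0 a) * (g0 c - g0 a) * (g0 c - g0 b) := by ring
      rw [e]
      refine mul_ne_zero (mul_ne_zero ?_ ?_) ?_
      · exact sub_ne_zero.2 (fun h => hab (hg0 h.symm))
      · exact sub_ne_zero.2 (fun h => hac (hg0 h.symm))
      · exact sub_ne_zero.2 (fun h => hbc (hg0 h.symm))
    filter_upwards [quad_ne (ori (P a) (P b) (P c))
      (((P b).1 - (P a).1) * (g0 c ^ 2 - g0 a ^ 2) + (g0 b - g0 a) * ((P c).2 - (P a).2)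
        - ((P b).2 - (P a).2) * (g0 c - g0 a) - (g0 b ^ 2 - g0 a ^ 2) * ((P c).1 - (P a).1))
      _ hC] with δ hδ _ _ _
    intro h0
    apply hδ
    rw [← h0]
    simp only [Pd, ori]
    ring
  have hcr : ∀ᶠ δ in 𝓝[≠] (0 : ℝ), ∀ a b c d : V, S a b c d →
      Cr (Pd δ a) (Pd δ b) (Pd δ c) (Pd δ d) := by
    rw [eventually_all]; intro a
    rw [eventually_all]; intro b
    rw [eventually_all]; intro c
    rw [eventually_all]; intro d
    by_cases hs : S a b c d
    · obtain ⟨h1, h2⟩ := hS a b c d hs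
      have c1 : ContinuousAt (fun δ : ℝ => ori (Pd δ a) (Pd δ b) (Pd δ c) *
          ori (Pd δ a) (Pd δ b) (Pd δ d)) 0 := by
        simp only [Pd, ori]
        fun_prop
      have c2 : ContinuousAt (fun δ : ℝ => ori (Pd δ c) (Pd δ d) (Pd δ a) *
          ori (Pd δ c) (Pd δ d) (Pd δ b)) 0 := by
        simp only [Pd, ori]
        fun_prop
      have e0 : ∀ v, Pd 0 v = P v := by
        intro v
        simp [Pd]
      have e1 : ∀ᶠ δ in 𝓝 (0 : ℝ), ori (Pd δ a) (Pd δ b) (Pd δ c) *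
          ori (Pd δ a) (Pd δ b) (Pd δ d) < 0 :=
        c1.eventually_lt continuousAt_const (by simpa only [e0] using h1)
      have e2 : ∀ᶠ δ in 𝓝 (0 : ℝ), ori (Pd δ c) (Pd δ d) (Pd δ a) *
          ori (Pd δ c) (Pd δ d) (Pd δ b) < 0 :=
        c2.eventually_lt continuousAt_const (by simpa only [e0] using h2)
      filter_upwards [e1.filter_mono nhdsWithin_le_nhds, e2.filter_mono nhdsWithin_le_nhds]
        with δ g1 g2 _
      exact ⟨g1, g2⟩
    · exact Eventually.of_forall (fun δ h => absurd h hs)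
  obtain ⟨δ, h1, h2, h3⟩ := (hinj.and (hcol.and hcr)).exists
  refine ⟨Pd δ, ?_, ?_, h3⟩
  · intro a b hab
    by_contra hne
    exact h1 a b hne (by rw [hab]; ring)
  · intro a b c hab hbc hac hcoll
    exact h2 a b c hab hbc hac (ori_eq_zero_of_collinear hcoll)

end Pool.Agent.W5h12.NCP
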