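import Pool.Agent.W5h12.NCP.Digits

set_option autoImplicit false

/-!
# The bound for sequences of classes and columns
-/

namespace Pool.Agent.W5h12.NCP

/-- the number with the digits of `x` other than the `a`-th one -/
def Gr {n q : ℕ} (a : ℕ) (x : Fin (n + 1) → Fin q) : ℤ :=
  ds q n (fun l => (((if (l : ℕ) < a then x l.castSucc else x l.succ : Fin q) : ℕ) : ℤ))

theorem Gr_nonneg {n q : ℕ} (a : ℕ) (x : Fin (n + 1) → Fin q) : 0 ≤ Gr a x := by
  unfold Gr ds
  refine Finset.sum_nonneg (fun l _ => ?_)
  positivity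

theorem Gr_lt_pow {n q : ℕ} (a : ℕ) (x : Fin (n + 1) → Fin q) : Gr a x < (q : ℤ) ^ n := by
  have hq : 1 ≤ q := Nat.lt_of_le_of_lt (Nat.zero_le _) (x 0).isLt
  have h := ds_abs (q : ℤ) (by exact_mod_cast hq) n
    (fun l => (((if (l : ℕ) < a then x l.castSucc else x l.succ : Fin q) : ℕ) : ℤ)) (by
      intro l
      have h1 := (if (l : ℕ) < a then x l.castSucc else x l.succ : Fin q).isLt
      rw [abs_of_nonneg (by positivity)]
      omega)
  have h2 := (abs_le.1 h).2
  unfold Gr
  linarith

theorem Gr_lt {n q : ℕ} (a : ℕ) (ha : a ≤ n) (x x' : Fin (n + 1) → Fin q) (τ : Fin (n + 1))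
    (hτ : (τ : ℕ) ≠ a) (h1 : ∀ l < τ, x l = x' l) (h2 : x τ < x' τ) : Gr a x < Gr a x' := by
  have hq : 1 ≤ q := Nat.lt_of_le_of_lt (Nat.zero_le _) (x 0).isLt
  have hbd : ∀ l : Fin n, |(((if (l : ℕ) < a then x l.castSucc else x l.succ : Fin q) : ℕ) : ℤ) -
      (((if (l : ℕ) < a then x' l.castSucc else x' l.succ : Fin q) : ℕ) : ℤ)| ≤ (q : ℤ) - 1 := by
    intro l
    have e1 := (if (l : ℕ) < a then x l.castSucc else x l.succ : Fin q).isLt
    have e2 := (if (l : ℕ) < a then x' l.castSucc else x' l.succ : Fin q).isLt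
    rw [abs_le]
    constructor <;> omega
  have key : Gr a x - Gr a x' < 0 := by
    unfold Gr
    rw [ds_sub]
    have hτn := τ.isLt
    rcases lt_or_gt_of_ne hτ with h | h
    · -- τ < a
      have hτ' : (τ : ℕ) < n := by omega
      refine ds_neg (q : ℤ) (by exact_mod_cast hq) n _ hbd ⟨τ, hτ'⟩ ?_ ?_
      · intro l hl
        have hl' : (l : ℕ) < τ := hl
        have : (l : ℕ) < a := by omega
        simp only [this, if_true]
        rw [h1 l.castSucc (by rw [Fin.lt_def]; exact hl')]
        ring
      · simp only [h, if_true]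
        have e : (Fin.castSucc ⟨(τ : ℕ), hτ'⟩ : Fin (n + 1)) = τ := Fin.ext rfl
        rw [e]
        have : ((x τ : ℕ)) < (x' τ : ℕ) := h2
        omega
    · -- a < τ
      have hτ0 : 0 < (τ : ℕ) := by omega
      have hτ' : (τ : ℕ) - 1 < n := by omega
      refine ds_neg (q : ℤ) (by exact_mod_cast hq) n _ hbd ⟨τ - 1, hτ'⟩ ?_ ?_
      · intro l hl
        have hl' : (l : ℕ) < τ - 1 := hl
        by_cases hla : (l : ℕ) < a
        · simp only [hla, if_true]
          rw [h1 l.castSucc (by rw [Fin.lt_def]; simp; omega)]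
          ring
        · simp only [hla, if_false]
          rw [h1 l.succ (by rw [Fin.lt_def]; simp; omega)]
          ring
      · have hna : ¬ ((τ : ℕ) - 1 < a) := by omega
        simp only [hna, if_false]
        have e : (Fin.succ ⟨(τ : ℕ) - 1, hτ'⟩ : Fin (n + 1)) = τ := Fin.ext (by simp; omega)
        rw [e]
        have : ((x τ : ℕ)) < (x' τ : ℕ) := h2
        omega
  linarith

/-- running minimum -/
def lo (k : ℕ → ℕ) : ℕ → ℕ
  | 0 => k 0
  | i + 1 => min (lo k i) (k (i + 1))

/-- running maximum -/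
def hi (k : ℕ → ℕ) : ℕ → ℕ
  | 0 => k 0
  | i + 1 => max (hi k i) (k (i + 1))

theorem lo_le (k : ℕ → ℕ) : ∀ i j, j ≤ i → lo k i ≤ k j := by
  intro i
  induction i with
  | zero => intro j hj; obtain rfl := Nat.le_zero.1 hj; exact le_rfl
  | succ i ih =>
    intro j hj
    rcases Nat.lt_or_ge j (i + 1) with h | h
    · exact le_trans (min_le_left _ _) (ih j (by omega))
    · obtain rfl : j = i + 1 := by omega
      exact min_le_right _ _

theorem le_hi (k : ℕ → ℕ) : ∀ i j, j ≤ i → k j ≤ hi k i := by
  intro i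
  induction i with
  | zero => intro j hj; obtain rfl := Nat.le_zero.1 hj; exact le_rfl
  | succ i ih =>
    intro j hj
    rcases Nat.lt_or_ge j (i + 1) with h | h
    · exact le_trans (ih j (by omega)) (le_max_left _ _)
    · obtain rfl : j = i + 1 := by omega
      exact le_max_right _ _

theorem hi_lt (k : ℕ → ℕ) (B M : ℕ) (h : ∀ i < M, k i < B) : ∀ i < M, hi k i < B := by
  intro i
  induction i with
  | zero => intro hi0; exact h 0 hi0
  | succ i ih =>
    intro hi0
    exact max_lt (ih (by omega)) (h _ hi0)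

theorem seq_bound (n q b M : ℕ) (hb : 0 < b) (k : ℕ → ℕ) (x : ℕ → (Fin (n + 1) → Fin q))
    (hk : ∀ i < M, k i < (n + 2) * b)
    (hinj : ∀ i < M, ∀ j < M, k i = k j → i = j)
    (hW : ∀ l i, l + 2 ≤ i → i < M →
      ¬ (k l < k i ∧ k i < k (l + 1)) ∧ ¬ (k (l + 1) < k i ∧ k i < k l))
    (hS : ∀ i, i + 1 < M → ∃ τ : Fin (n + 1), (∀ l < τ, x (i + 2) l = x (i + 1) l) ∧
      x (i + 2) τ < x (i + 1) τ ∧ (k i < k (i + 1) → k (i + 1) / b ≤ τ) ∧
      (k (i + 1) < k i → (τ : ℕ) < k (i + 1) / b)) :
    M ≤ b + (n + 1) * q ^ n := by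
  -- new classes are outside the range of the old ones
  have hout : ∀ v, v + 1 < M → ∀ i, i ≤ v → k (v + 1) < lo k i ∨ hi k i < k (v + 1) := by
    intro v hv i
    induction i with
    | zero =>
      intro _
      have hne : k (v + 1) ≠ k 0 := fun h => by
        have := hinj (v + 1) hv 0 (by omega) h
        omega
      rcases lt_or_gt_of_ne hne with h | h
      · exact Or.inl h
      · exact Or.inr h
    | succ i ih =>
      intro hi1
      have hne : k (v + 1) ≠ k (i + 1) := fun h => by
        have := hinj (v + 1) hv (i + 1) (by omega) h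
        omega
      obtain ⟨w1, w2⟩ := hW i (v + 1) (by omega) hv
      rcases ih (by omega) with h | h
      · left
        have h3 : k (v + 1) < k i := lt_of_lt_of_le h (lo_le k i i le_rfl)
        refine lt_min h ?_
        rcases lt_or_gt_of_ne hne with h4 | h4
        · exact h4
        · exact absurd ⟨h4, h3⟩ w2
      · right
        have h3 : k i < k (v + 1) := lt_of_le_of_lt (le_hi k i i le_rfl) h
        refine max_lt h ?_
        rcases lt_or_gt_of_ne hne with h4 | h4
        · exact absurd ⟨h3, h4⟩ w1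
        · exact h4
  have hout' : ∀ i, i + 1 < M → k (i + 1) < lo k i ∨ hi k i < k (i + 1) :=
    fun i hi1 => hout i hi1 i le_rfl
  -- the first index with two blocks
  obtain ⟨i0, hi0M, hi0a, hi0b⟩ : ∃ i0, i0 ≤ M ∧ (∀ i < i0, ¬ (lo k i / b < hi k i / b)) ∧
      (∀ i, i0 ≤ i → i < M → lo k i / b < hi k i / b) := by
    by_cases hex : ∃ i, i < M ∧ lo k i / b < hi k i / b
    · classical
      refine ⟨Nat.find hex, (Nat.find_spec hex).1.le, ?_, ?_⟩
      · intro i hi1 h
        exact Nat.find_min hex hi1 ⟨lt_trans hi1 (Nat.find_spec hex).1, h⟩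
      · intro i hi1
        induction i, hi1 using Nat.le_induction with
        | base => intro _; exact (Nat.find_spec hex).2
        | succ i hi2 ih =>
          intro h3
          have h4 := ih (by omega)
          have h5 : lo k (i + 1) / b ≤ lo k i / b := Nat.div_le_div_right (min_le_left _ _)
          have h6 : hi k i / b ≤ hi k (i + 1) / b := Nat.div_le_div_right (le_max_left _ _)
          omega
    · push Not at hex
      exact ⟨M, le_rfl, fun i hi1 h => absurd h (not_lt.2 (hex i hi1)), fun i h1 h2 => by omega⟩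
  -- first phase
  have hphase1 : i0 ≤ b := by
    rcases Nat.eq_zero_or_pos i0 with h | h
    · omega
    · have hJ : ∀ j < i0, k j / b = k 0 / b := by
        intro j hj
        have h1 := hi0a (i0 - 1) (by omega)
        have h2 := lo_le k (i0 - 1) j (by omega)
        have h3 := le_hi k (i0 - 1) j (by omega)
        have h4 := lo_le k (i0 - 1) 0 (by omega)
        have h5 := le_hi k (i0 - 1) 0 (by omega)
        have g2 := Nat.div_le_div_right (c := b) h2
        have g3 := Nat.div_le_div_right (c := b) h3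
        have g4 := Nat.div_le_div_right (c := b) h4
        have g5 := Nat.div_le_div_right (c := b) h5
        omega
      have hcard := Finset.card_le_card_of_injOn (s := Finset.range i0)
        (t := Finset.Ico (k 0 / b * b) (k 0 / b * b + b)) k (by
          intro j hj
          have hj' : j < i0 := by simpa using hj
          have h1 := hJ j hj'
          have h2 := Nat.div_add_mod (k j) b
          have h3 := Nat.mod_lt (k j) hb
          rw [h1] at h2
          simp only [Finset.coe_Ico, Set.mem_Ico]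
          rw [mul_comm (k 0 / b) b]
          constructor <;> omega) (by
          intro i hi1 j hj1 h
          have hi' : i < i0 := by simpa using hi1
          have hj' : j < i0 := by simpa using hj1
          exact hinj i (by omega) j (by omega) h)
      simpa using hcard
  -- second phase
  let Ψ : ℕ → ℤ := fun i => ((lo k i / b : ℕ) : ℤ) * (q : ℤ) ^ n + Gr (lo k i / b) (x (i + 1))
  have hqpos : (0 : ℤ) ≤ (q : ℤ) ^ n := by positivity
  have hlob : ∀ i, i0 ≤ i → i < M → lo k i / b ≤ n := by
    intro i h1 h2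
    have h3 := hi0b i h1 h2
    have h4 := hi_lt k _ M hk i h2
    have h5 : hi k i / b < n + 2 := Nat.div_lt_of_lt_mul (by rw [mul_comm]; exact h4)
    omega
  have hdec : ∀ i, i0 ≤ i → i + 1 < M → Ψ (i + 1) < Ψ i := by
    intro i h1 h2
    have hle : lo k (i + 1) / b ≤ lo k i / b := Nat.div_le_div_right (min_le_left _ _)
    rcases Nat.lt_or_ge (lo k (i + 1) / b) (lo k i / b) with h3 | h3
    · have g1 := Gr_lt_pow (lo k (i + 1) / b) (x (i + 1 + 1))
      have g2 := Gr_nonneg (lo k i / b) (x (i + 1))
      have g3 : (((lo k (i + 1) / b : ℕ) : ℤ) + 1) * (q : ℤ) ^ n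
          ≤ ((lo k i / b : ℕ) : ℤ) * (q : ℤ) ^ n := by
        refine mul_le_mul_of_nonneg_right ?_ hqpos
        exact_mod_cast h3
      simp only [Ψ]
      nlinarith
    · have heq : lo k (i + 1) / b = lo k i / b := le_antisymm hle h3
      obtain ⟨τ, t1, t2, t3, t4⟩ := hS i h2
      have hne : (τ : ℕ) ≠ lo k i / b := by
        rcases hout' i h2 with h4 | h4
        · have h5 : k (i + 1) < k i := lt_of_lt_of_le h4 (lo_le k i i le_rfl)
          have h6 := t4 h5
          have h7 : lo k (i + 1) = k (i + 1) := min_eq_right h4.le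
          rw [h7] at heq
          omega
        · have h5 : k i < k (i + 1) := lt_of_le_of_lt (le_hi k i i le_rfl) h4
          have h6 := t3 h5
          have h7 : hi k (i + 1) = k (i + 1) := max_eq_right h4.le
          have h8 := hi0b (i + 1) (by omega) h2
          rw [h7] at h8
          omega
      have hG := Gr_lt (lo k i / b) (hlob i h1 (by omega)) (x (i + 2)) (x (i + 1)) τ hne t1 t2
      simp only [Ψ]
      rw [heq]
      have : x (i + 1 + 1) = x (i + 2) := rfl
      rw [this]
      linarith
  have hchain : ∀ d : ℕ, i0 + d < M → Ψ (i0 + d) + d ≤ Ψ i0 := by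
    intro d
    induction d with
    | zero => intro _; simp
    | succ d ih =>
      intro h
      have h1 := ih (by omega)
      have h2 := hdec (i0 + d) (by omega) (by omega)
      have h3 : i0 + (d + 1) = i0 + d + 1 := rfl
      rw [h3]
      push_cast
      linarith
  have hpow : ((q : ℤ) ^ n) = ((q ^ n : ℕ) : ℤ) := by push_cast; ring
  rcases Nat.lt_or_ge i0 M with h | h
  · have h1 := hchain (M - 1 - i0) (by omega)
    have h2 : 0 ≤ Ψ (i0 + (M - 1 - i0)) := by
      have := Gr_nonneg (lo k (i0 + (M - 1 - i0)) / b) (x (i0 + (M - 1 - i0) + 1))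
      simp only [Ψ]
      positivity
    have h3 : Ψ i0 < ((n : ℤ) + 1) * (q : ℤ) ^ n := by
      have g1 := Gr_lt_pow (lo k i0 / b) (x (i0 + 1))
      have g2 : ((lo k i0 / b : ℕ) : ℤ) ≤ n := by exact_mod_cast hlob i0 le_rfl h
      have g3 := mul_le_mul_of_nonneg_right g2 hqpos
      simp only [Ψ]
      linarith
    have h4 : ((M - 1 - i0 : ℕ) : ℤ) < (((n + 1) * q ^ n : ℕ) : ℤ) := by
      push_cast
      linarith
    have h5 : M - 1 - i0 < (n + 1) * q ^ n := by exact_mod_cast h4
    omega
  · omega

end Pool.Agent.W5h12.NCP
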