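import Pool.Agent.W5h12.NCP.Config
import Pool.Agent.W5h12.NCP.Seq

set_option autoImplicit false

/-!
# Noncrossing paths are short
-/

namespace Pool.Agent.W5h12.NCP

/-- incidence: the point `p` lies on the line `r` -/
def Inc {T q H m Cm : ℕ} (p : (Fin T → Fin q) × Fin H) (r : Fin m × Fin Cm) : Prop :=
  ((r.2 : ℕ) : ℤ) = ((p.2 : ℕ) : ℤ) + ((m : ℤ) - ((r.1 : ℕ) : ℤ)) * Xs p.1

/-- the data of a noncrossing path -/
structure Hyp {T q H m Cm : ℕ} (b : ℕ) (p : ℕ → (Fin T → Fin q) × Fin H)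
    (r : ℕ → Fin m × Fin Cm) (M : ℕ) : Prop where
  incl : ∀ i < M, Inc (p i) (r i)
  incr : ∀ i < M, Inc (p (i + 1)) (r i)
  pinj : ∀ i ≤ M, ∀ j ≤ M, p i = p j → i = j
  rinj : ∀ i < M, ∀ j < M, r i = r j → i = j
  nb : ∀ i < M, ∀ j < M, ∀ a c, (a = i ∨ a = i + 1) → (c = j ∨ c = j + 1) → i ≠ j → a ≠ c →
    ¬ Bad b (p a) (r i) (p c) (r j)

theorem ds_smul (B : ℤ) (n : ℕ) (z : ℤ) (a : Fin n → ℤ) :
    z * ds B n a = ds B n (fun l => z * a l) := by
  unfold ds
  rw [Finset.mul_sum]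
  exact Finset.sum_congr rfl (fun l _ => by ring)

theorem ds_add (B : ℤ) (n : ℕ) (a a' : Fin n → ℤ) :
    ds B n a + ds B n a' = ds B n (fun l => a l + a' l) := by
  unfold ds
  rw [← Finset.sum_add_distrib]
  exact Finset.sum_congr rfl (fun l _ => by ring)

theorem digit_abs {T q : ℕ} (x x' : Fin T → Fin q) (l : Fin T) :
    |((x l : ℕ) : ℤ) - ((x' l : ℕ) : ℤ)| ≤ (q : ℤ) - 1 := by
  have h1 := (x l).isLt
  have h2 := (x' l).isLt
  rw [abs_le]
  constructor <;> omega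

theorem q_le_Qb {T q : ℕ} : (q : ℤ) ≤ Qb T q := by
  unfold Qb
  have h1 : (1 : ℤ) ≤ 2 * T + 1 := by omega
  have h2 : (0 : ℤ) ≤ q := by positivity
  nlinarith

/-- the most significant differing digit -/
theorem top_lt {T q : ℕ} (x x' : Fin T → Fin q) (h : Xs x < Xs x') :
    ∃ τ : Fin T, (∀ l < τ, x l = x' l) ∧ x τ < x' τ := by
  have hne : x ≠ x' := fun h0 => by rw [h0] at h; exact lt_irrefl _ h
  obtain ⟨τ, h1, h2⟩ := exists_top x x' hne
  refine ⟨τ, h1, ?_⟩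
  rcases lt_or_gt_of_ne h2 with h3 | h3
  · exact h3
  · exfalso
    have hq : 0 < q := Nat.lt_of_le_of_lt (Nat.zero_le _) (x τ).isLt
    have key := ds_neg (Qb T q) (Qb_pos hq) T
      (fun l => ((x' l : ℕ) : ℤ) - ((x l : ℕ) : ℤ))
      (fun l => le_trans (digit_abs x' x l) (by linarith [q_le_Qb (T := T) (q := q)])) τ
      (fun l hl => by rw [h1 l hl]; ring) (by
        have : ((x' τ : ℕ)) < (x τ : ℕ) := h3
        omega)
    rw [← ds_sub] at key
    unfold Xs at h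
    linarith

theorem Xs_inj {T q : ℕ} (x x' : Fin T → Fin q) (h : Xs x = Xs x') : x = x' := by
  by_contra hne
  obtain ⟨τ, h1, h2⟩ := exists_top x x' hne
  have hq : 0 < q := Nat.lt_of_le_of_lt (Nat.zero_le _) (x τ).isLt
  have hb : ∀ l, |((x' l : ℕ) : ℤ) - ((x l : ℕ) : ℤ)| ≤ Qb T q - 1 :=
    fun l => le_trans (digit_abs x' x l) (by linarith [q_le_Qb (T := T) (q := q)])
  have hz : ∀ l < τ, ((x' l : ℕ) : ℤ) - ((x l : ℕ) : ℤ) = 0 := fun l hl => by rw [h1 l hl]; ring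
  rcases lt_or_gt_of_ne h2 with h3 | h3
  · have key := ds_pos (Qb T q) (Qb_pos hq) T
      (fun l => ((x' l : ℕ) : ℤ) - ((x l : ℕ) : ℤ)) hb τ hz (by
        have : ((x τ : ℕ)) < (x' τ : ℕ) := h3
        omega)
    rw [← ds_sub] at key
    unfold Xs at h
    linarith
  · have key := ds_neg (Qb T q) (Qb_pos hq) T
      (fun l => ((x' l : ℕ) : ℤ) - ((x l : ℕ) : ℤ)) hb τ hz (by
        have : ((x' τ : ℕ)) < (x τ : ℕ) := h3
        omega)
    rw [← ds_sub] at key
    unfold Xs at h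
    linarith

theorem D1_eq {T q H : ℕ} (b : ℕ) (p p' : (Fin T → Fin q) × Fin H) (k : ℕ) :
    D1 b p p' k = ds (Qb T q) T (fun l => (2 * (((k / b : ℕ) : ℤ) - ((l : ℕ) : ℤ)) - 1) *
      (((p.1 l : ℕ) : ℤ) - ((p'.1 l : ℕ) : ℤ))) := by
  unfold D1 fs Xs zs
  have e : (1 + ds (Qb T q) T (fun l => ((p'.1 l : ℕ) : ℤ)) -
      (1 + ds (Qb T q) T (fun l => ((p.1 l : ℕ) : ℤ))))
      = ds (Qb T q) T (fun l => ((p'.1 l : ℕ) : ℤ) - ((p.1 l : ℕ) : ℤ)) := by
    rw [← ds_sub]; ring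
  rw [e, ds_sub, ds_smul, ds_add]
  congr 1
  funext l
  ring

theorem D1_coef {T q : ℕ} (j : ℕ) (hj : j ≤ T) (x x' : Fin T → Fin q) (l : Fin T) :
    |(2 * ((j : ℤ) - ((l : ℕ) : ℤ)) - 1) * (((x l : ℕ) : ℤ) - ((x' l : ℕ) : ℤ))| ≤ Qb T q - 1 := by
  have hq : 1 ≤ q := Nat.lt_of_le_of_lt (Nat.zero_le _) (x l).isLt
  have h1 := digit_abs x x' l
  have hl := l.isLt
  have h2 : |2 * ((j : ℤ) - ((l : ℕ) : ℤ)) - 1| ≤ 2 * T + 1 := by
    rw [abs_le]; constructor <;> omega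
  rw [abs_mul]
  calc |2 * ((j : ℤ) - ((l : ℕ) : ℤ)) - 1| * |((x l : ℕ) : ℤ) - ((x' l : ℕ) : ℤ)|
      ≤ (2 * T + 1) * ((q : ℤ) - 1) := mul_le_mul h2 h1 (abs_nonneg _) (by positivity)
    _ ≤ Qb T q - 1 := by unfold Qb; nlinarith

/-- the sign of the microscopic difference -/
theorem D1_sign {T q H : ℕ} (b : ℕ) (p p' : (Fin T → Fin q) × Fin H) (k : ℕ) (hk : k / b ≤ T)
    (τ : Fin T) (h1 : ∀ l < τ, p.1 l = p'.1 l) (h2 : p.1 τ < p'.1 τ) :
    (k / b ≤ τ → 0 < D1 b p p' k) ∧ ((τ : ℕ) < k / b → D1 b p p' k < 0) := by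
  have hq : 0 < q := Nat.lt_of_le_of_lt (Nat.zero_le _) (p.1 τ).isLt
  have h2' : ((p.1 τ : ℕ)) < (p'.1 τ : ℕ) := h2
  constructor
  · intro h
    rw [D1_eq]
    refine ds_pos (Qb T q) (Qb_pos hq) T _ (fun l => D1_coef (k / b) hk p.1 p'.1 l) τ
      (fun l hl => by rw [h1 l hl]; ring) ?_
    apply mul_pos_of_neg_of_neg
    · omega
    · omega
  · intro h
    rw [D1_eq]
    refine ds_neg (Qb T q) (Qb_pos hq) T _ (fun l => D1_coef (k / b) hk p.1 p'.1 l) τ
      (fun l hl => by rw [h1 l hl]; ring) ?_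
    apply mul_neg_of_pos_of_neg
    · omega
    · omega

section

variable {T q H m Cm b : ℕ} {p : ℕ → (Fin T → Fin q) × Fin H} {r : ℕ → Fin m × Fin Cm} {M : ℕ}

theorem Hyp.class_ne (h : Hyp b p r M) {i j : ℕ} (hi : i < M) (hj : j < M) (hij : i ≠ j) :
    (r i).1 ≠ (r j).1 := by
  intro hk
  have hr : r i ≠ r j := fun h0 => hij (h.rinj i hi j hj h0)
  have hc : ((r i).2 : ℕ) ≠ ((r j).2 : ℕ) := fun h0 => hr (Prod.ext hk (Fin.ext h0))
  have hcz : (((r j).2 : ℕ) : ℤ) - (((r i).2 : ℕ) : ℤ) ≠ 0 := by omega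
  have hsq : 0 < ((((r j).2 : ℕ) : ℤ) - (((r i).2 : ℕ) : ℤ)) ^ 2 := by positivity
  have e1 := h.incl i hi
  have e2 := h.incl j hj
  unfold Inc at e1 e2
  rcases le_total (Xs (p i).1) (Xs (p j).1) with hX | hX
  · refine h.nb i hi j hj i j (Or.inl rfl) (Or.inl rfl) hij hij ⟨hX, Or.inr (Or.inr ⟨hk, ?_⟩)⟩
    rw [← hk] at e2
    have : D0 m (p i) (p j) (r i).1 = (((r i).2 : ℕ) : ℤ) - (((r j).2 : ℕ) : ℤ) := by
      unfold D0
      rw [e1, e2]; ring
    rw [this]
    nlinarith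
  · refine h.nb j hj i hi j i (Or.inl rfl) (Or.inl rfl) hij.symm hij.symm
      ⟨hX, Or.inr (Or.inr ⟨hk.symm, ?_⟩)⟩
    rw [← hk] at e2
    have : D0 m (p j) (p i) (r j).1 = (((r j).2 : ℕ) : ℤ) - (((r i).2 : ℕ) : ℤ) := by
      unfold D0
      rw [← hk, e1, e2]; ring
    rw [this]
    nlinarith

theorem Hyp.X_ne (h : Hyp b p r M) {i : ℕ} (hi : i < M) : Xs (p i).1 ≠ Xs (p (i + 1)).1 := by
  intro hX
  have e1 := h.incl i hi
  have e2 := h.incr i hi
  unfold Inc at e1 e2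
  rw [← hX] at e2
  have h2 : ((p i).2 : ℕ) = ((p (i + 1)).2 : ℕ) := by
    have : (((p i).2 : ℕ) : ℤ) = (((p (i + 1)).2 : ℕ) : ℤ) := by linarith
    exact_mod_cast this
  have h3 : p i = p (i + 1) := Prod.ext (Xs_inj _ _ hX) (Fin.ext h2)
  have := h.pinj i hi.le (i + 1) hi h3
  omega

/-- no interior local maximum -/
theorem Hyp.no_max (h : Hyp b p r M) {i : ℕ} (hi : i + 1 < M)
    (h1 : Xs (p i).1 < Xs (p (i + 1)).1) (h2 : Xs (p (i + 2)).1 < Xs (p (i + 1)).1) : False := by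
  have hk := h.class_ne (i := i) (j := i + 1) (by omega) hi (by omega)
  have hkz : (((r i).1 : ℕ) : ℤ) - (((r (i + 1)).1 : ℕ) : ℤ) ≠ 0 := by
    intro h0
    apply hk
    apply Fin.ext
    omega
  have hsq : 0 < ((((r i).1 : ℕ) : ℤ) - (((r (i + 1)).1 : ℕ) : ℤ)) ^ 2 := by positivity
  have e1 := h.incl i (by omega)
  have e2 := h.incr i (by omega)
  have e3 := h.incl (i + 1) hi
  have e4 := h.incr (i + 1) hi
  unfold Inc at e1 e2 e3 e4
  have e4' : (((r (i + 1)).2 : ℕ) : ℤ) = (((p (i + 2)).2 : ℕ) : ℤ) +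
    ((m : ℤ) - (((r (i + 1)).1 : ℕ) : ℤ)) * Xs (p (i + 2)).1 := e4
  rcases le_total (Xs (p i).1) (Xs (p (i + 2)).1) with hX | hX
  · refine h.nb i (by omega) (i + 1) hi i (i + 2) (Or.inl rfl) (Or.inr rfl) (by omega) (by omega)
      ⟨hX, Or.inl ?_⟩
    have e : (((((r i).1 : ℕ) : ℤ) - (((r (i + 1)).1 : ℕ) : ℤ)) * D0 m (p i) (p (i + 2)) (r i).1)
        = -(((((r i).1 : ℕ) : ℤ) - (((r (i + 1)).1 : ℕ) : ℤ)) ^ 2 *
          (Xs (p (i + 1)).1 - Xs (p (i + 2)).1)) := by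
      have y1 : (((p i).2 : ℕ) : ℤ) = (((p (i + 1)).2 : ℕ) : ℤ) +
          ((m : ℤ) - (((r i).1 : ℕ) : ℤ)) * (Xs (p (i + 1)).1 - Xs (p i).1) := by linarith
      have y2 : (((p (i + 2)).2 : ℕ) : ℤ) = (((p (i + 1)).2 : ℕ) : ℤ) +
          ((m : ℤ) - (((r (i + 1)).1 : ℕ) : ℤ)) * (Xs (p (i + 1)).1 - Xs (p (i + 2)).1) := by
        linarith
      unfold D0
      rw [y1, y2]
      ring
    rw [e]
    have : 0 < Xs (p (i + 1)).1 - Xs (p (i + 2)).1 := by linarith
    have := mul_pos hsq this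
    linarith
  · refine h.nb (i + 1) hi i (by omega) (i + 2) i (Or.inr rfl) (Or.inl rfl) (by omega) (by omega)
      ⟨hX, Or.inl ?_⟩
    have e : (((((r (i + 1)).1 : ℕ) : ℤ) - (((r i).1 : ℕ) : ℤ)) *
        D0 m (p (i + 2)) (p i) (r (i + 1)).1)
        = -(((((r i).1 : ℕ) : ℤ) - (((r (i + 1)).1 : ℕ) : ℤ)) ^ 2 *
          (Xs (p (i + 1)).1 - Xs (p i).1)) := by
      have y1 : (((p i).2 : ℕ) : ℤ) = (((p (i + 1)).2 : ℕ) : ℤ) +
          ((m : ℤ) - (((r i).1 : ℕ) : ℤ)) * (Xs (p (i + 1)).1 - Xs (p i).1) := by linarith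
      have y2 : (((p (i + 2)).2 : ℕ) : ℤ) = (((p (i + 1)).2 : ℕ) : ℤ) +
          ((m : ℤ) - (((r (i + 1)).1 : ℕ) : ℤ)) * (Xs (p (i + 1)).1 - Xs (p (i + 2)).1) := by
        linarith
      unfold D0
      rw [y1, y2]
      ring
    rw [e]
    have : 0 < Xs (p (i + 1)).1 - Xs (p i).1 := by linarith
    have := mul_pos hsq this
    linarith

theorem Hyp.restrict (h : Hyp b p r M) {s : ℕ} (hs : s ≤ M) : Hyp b p r s where
  incl i hi := h.incl i (by omega)
  incr i hi := h.incr i (by omega)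
  pinj i hi j hj := h.pinj i (by omega) j (by omega)
  rinj i hi j hj := h.rinj i (by omega) j (by omega)
  nb i hi j hj := h.nb i (by omega) j (by omega)

theorem Hyp.rev (h : Hyp b p r M) : Hyp b (fun i => p (M - i)) (fun i => r (M - 1 - i)) M where
  incl i hi := by
    have := h.incr (M - 1 - i) (by omega)
    rwa [show M - 1 - i + 1 = M - i by omega] at this
  incr i hi := by
    have := h.incl (M - 1 - i) (by omega)
    rwa [show M - 1 - i = M - (i + 1) by omega] at this ⊢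
  pinj i hi j hj he := by
    have := h.pinj (M - i) (by omega) (M - j) (by omega) he
    omega
  rinj i hi j hj he := by
    have := h.rinj (M - 1 - i) (by omega) (M - 1 - j) (by omega) he
    omega
  nb i hi j hj a c ha hc hij hac := by
    refine h.nb (M - 1 - i) (by omega) (M - 1 - j) (by omega) (M - a) (M - c) ?_ ?_ (by omega)
      (by omega)
    · omega
    · omega

end

section

variable {n q H m Cm b : ℕ} {p : ℕ → (Fin (n + 1) → Fin q) × Fin H} {r : ℕ → Fin m × Fin Cm}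
  {M : ℕ}

theorem Hyp.left_bound (hb : 0 < b) (hm : m = (n + 2) * b) (h : Hyp b p r M)
    (hX : ∀ i < M, Xs (p (i + 1)).1 < Xs (p i).1) : M ≤ b + (n + 1) * q ^ n := by
  have hblock : ∀ i, ((r i).1 : ℕ) / b ≤ n + 1 := by
    intro i
    have h1 := (r i).1.isLt
    have h2 : ((r i).1 : ℕ) < b * (n + 2) := by rw [mul_comm, ← hm]; exact h1
    have h3 := Nat.div_lt_of_lt_mul h2
    omega
  have hanti : ∀ i j, i < j → j ≤ M → Xs (p j).1 < Xs (p i).1 := by
    intro i j hij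
    induction j, hij using Nat.le_induction with
    | base => intro h1; exact hX i (by omega)
    | succ j hj ih => intro h1; exact lt_trans (hX j (by omega)) (ih (by omega))
  refine seq_bound n q b M hb (fun i => ((r i).1 : ℕ)) (fun i => (p i).1) ?_ ?_ ?_ ?_
  · intro i hi
    rw [← hm]
    exact (r i).1.isLt
  · intro i hi j hj he
    by_contra hij
    exact h.class_ne hi hj hij (Fin.ext he)
  · intro l i hli hi
    have hXl : Xs (p (i + 1)).1 < Xs (p (l + 1)).1 := hanti (l + 1) (i + 1) (by omega) (by omega)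
    have b1 := h.nb i hi l (by omega) (i + 1) (l + 1) (Or.inr rfl) (Or.inr rfl) (by omega)
      (by omega)
    have b2 := h.nb i hi (l + 1) (by omega) (i + 1) (l + 1) (Or.inr rfl) (Or.inl rfl) (by omega)
      (by omega)
    obtain ⟨τ, t1, t2⟩ := top_lt _ _ hXl
    obtain ⟨s1, s2⟩ := D1_sign b (p (i + 1)) (p (l + 1)) (r i).1 (hblock i) τ t1 t2
    have hD1 : D1 b (p (i + 1)) (p (l + 1)) (r i).1 ≠ 0 := by
      rcases Nat.lt_or_ge (τ : ℕ) (((r i).1 : ℕ) / b) with h3 | h3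
      · exact ne_of_lt (s2 h3)
      · exact ne_of_gt (s1 h3)
    unfold Bad at b1 b2
    push Not at b1 b2
    obtain ⟨b11, b12, _⟩ := b1 hXl.le
    obtain ⟨b21, b22, _⟩ := b2 hXl.le
    constructor
    · rintro ⟨g1, g2⟩
      have g1' : (0 : ℤ) < (((r i).1 : ℕ) : ℤ) - (((r l).1 : ℕ) : ℤ) := by
        have : ((r l).1 : ℕ) < ((r i).1 : ℕ) := g1
        omega
      have g2' : (((r i).1 : ℕ) : ℤ) - (((r (l + 1)).1 : ℕ) : ℤ) < 0 := by
        have : ((r i).1 : ℕ) < ((r (l + 1)).1 : ℕ) := g2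
        omega
      have d1 : 0 ≤ D0 m (p (i + 1)) (p (l + 1)) (r i).1 := by
        by_contra hneg
        push Not at hneg
        have := mul_neg_of_pos_of_neg g1' hneg
        linarith
      have d2 : D0 m (p (i + 1)) (p (l + 1)) (r i).1 ≤ 0 := by
        by_contra hneg
        push Not at hneg
        have := mul_neg_of_neg_of_pos g2' hneg
        linarith
      have d0 := le_antisymm d2 d1
      have f1 := b12 d0
      have f2 := b22 d0
      rcases lt_or_gt_of_ne hD1 with h3 | h3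
      · have := mul_neg_of_pos_of_neg g1' h3
        linarith
      · have := mul_neg_of_neg_of_pos g2' h3
        linarith
    · rintro ⟨g1, g2⟩
      have g1' : (0 : ℤ) < (((r i).1 : ℕ) : ℤ) - (((r (l + 1)).1 : ℕ) : ℤ) := by
        have : ((r (l + 1)).1 : ℕ) < ((r i).1 : ℕ) := g1
        omega
      have g2' : (((r i).1 : ℕ) : ℤ) - (((r l).1 : ℕ) : ℤ) < 0 := by
        have : ((r i).1 : ℕ) < ((r l).1 : ℕ) := g2
        omega
      have d1 : 0 ≤ D0 m (p (i + 1)) (p (l + 1)) (r i).1 := by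
        by_contra hneg
        push Not at hneg
        have := mul_neg_of_pos_of_neg g1' hneg
        linarith
      have d2 : D0 m (p (i + 1)) (p (l + 1)) (r i).1 ≤ 0 := by
        by_contra hneg
        push Not at hneg
        have := mul_neg_of_neg_of_pos g2' hneg
        linarith
      have d0 := le_antisymm d2 d1
      have f1 := b12 d0
      have f2 := b22 d0
      rcases lt_or_gt_of_ne hD1 with h3 | h3
      · have := mul_neg_of_pos_of_neg g1' h3
        linarith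
      · have := mul_neg_of_neg_of_pos g2' h3
        linarith
  · intro i hi
    have hXi : Xs (p (i + 2)).1 < Xs (p (i + 1)).1 := hX (i + 1) hi
    obtain ⟨τ, t1, t2⟩ := top_lt _ _ hXi
    obtain ⟨s1, s2⟩ := D1_sign b (p (i + 2)) (p (i + 1)) (r (i + 1)).1 (hblock (i + 1)) τ t1 t2
    have b1 := h.nb (i + 1) hi i (by omega) (i + 2) (i + 1) (Or.inr rfl) (Or.inr rfl) (by omega)
      (by omega)
    have e3 := h.incl (i + 1) hi
    have e4 := h.incr (i + 1) hi
    unfold Inc at e3 e4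
    have e4' : (((r (i + 1)).2 : ℕ) : ℤ) = (((p (i + 2)).2 : ℕ) : ℤ) +
      ((m : ℤ) - (((r (i + 1)).1 : ℕ) : ℤ)) * Xs (p (i + 2)).1 := e4
    have d0 : D0 m (p (i + 2)) (p (i + 1)) (r (i + 1)).1 = 0 := by
      unfold D0
      linarith
    unfold Bad at b1
    push Not at b1
    obtain ⟨_, b12, _⟩ := b1 hXi.le
    have f1 := b12 d0
    refine ⟨τ, t1, t2, ?_, ?_⟩
    · intro g
      by_contra hc
      push Not at hc
      have h3 := s2 hc
      have g' : (0 : ℤ) < (((r (i + 1)).1 : ℕ) : ℤ) - (((r i).1 : ℕ) : ℤ) := by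
        have : ((r i).1 : ℕ) < ((r (i + 1)).1 : ℕ) := g
        omega
      have := mul_neg_of_pos_of_neg g' h3
      linarith
    · intro g
      by_contra hc
      push Not at hc
      have h3 := s1 hc
      have g' : (((r (i + 1)).1 : ℕ) : ℤ) - (((r i).1 : ℕ) : ℤ) < 0 := by
        have : ((r (i + 1)).1 : ℕ) < ((r i).1 : ℕ) := g
        omega
      have := mul_neg_of_neg_of_pos g' h3
      linarith

/-- noncrossing paths are short -/
theorem Hyp.bound (hb : 0 < b) (hm : m = (n + 2) * b) (h : Hyp b p r M) :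
    M ≤ 2 * (b + (n + 1) * q ^ n) := by
  classical
  by_cases hex : ∃ i, i < M ∧ Xs (p i).1 < Xs (p (i + 1)).1
  · obtain ⟨hj1, hj2⟩ := Nat.find_spec hex
    have hdec : ∀ i < Nat.find hex, Xs (p (i + 1)).1 < Xs (p i).1 := by
      intro i hi
      have h1 := Nat.find_min hex hi
      push Not at h1
      have h2 := h1 (by omega)
      exact lt_of_le_of_ne h2 (h.X_ne (by omega)).symm
    have hinc : ∀ i, Nat.find hex ≤ i → i < M → Xs (p i).1 < Xs (p (i + 1)).1 := by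
      intro i hi
      induction i, hi using Nat.le_induction with
      | base => intro _; exact hj2
      | succ i hi ih =>
        intro h1
        have h2 := ih (by omega)
        rcases lt_or_gt_of_ne (h.X_ne h1) with h3 | h3
        · exact h3
        · exact (h.no_max h1 h2 h3).elim
    have g1 := (h.restrict hj1.le).left_bound hb hm hdec
    have g2 := (h.rev.restrict (s := M - Nat.find hex) (by omega)).left_bound hb hm (by
      intro i hi
      have := hinc (M - (i + 1)) (by omega) (by omega)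
      rwa [show M - (i + 1) + 1 = M - i by omega] at this)
    omega
  · push Not at hex
    have g1 := h.left_bound hb hm (fun i hi => lt_of_le_of_ne (hex i hi) (h.X_ne hi).symm)
    omega

end

end Pool.Agent.W5h12.NCP
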